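import Pool.Agent.H59.R1.Coh

/-!
# Rank one: the `L`-polynomial and the multiplicity of the eigenvalue one

`IsL g L` determines `L`; the order of vanishing of the right hand side of `Coh.chp` at `1`.
-/

set_option autoImplicit false

namespace Pool.RKO

open Polynomial Pool.AVR Pool.AVS Pool.RZ Pool.PRL

namespace Pol

/-- A prime has positive degree. -/
theorem pos_deg {F : Type} [Field F] {P : F[X]} (hP : Irreducible P) : 0 < P.natDegree :=
  hP.natDegree_pos

/-- The constant coefficient of an Euler factor is one. -/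
theorem ef_coeff {F : Type} [Field F] (g : F[X] × F[X] × F[X]) {P : F[X]} (hP : 0 < P.natDegree) :
    (EF g P).coeff 0 = 1 := by
  unfold EF
  have h1 : (X ^ P.natDegree : ℤ[X]).coeff 0 = 0 := by
    rw [coeff_X_pow]
    exact if_neg (by omega)
  have h2 : (X ^ (2 * P.natDegree) : ℤ[X]).coeff 0 = 0 := by
    rw [coeff_X_pow]
    exact if_neg (by omega)
  rw [coeff_add, coeff_sub, coeff_one_zero, mul_coeff_zero, h1]
  split_ifs
  · simp
  · rw [mul_coeff_zero, h2]
    simp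

/-- The constant coefficient of a product of Euler factors is one. -/
theorem prod_coeff {F : Type} [Field F] (g : F[X] × F[X] × F[X]) (N : ℕ) :
    (∏ᶠ P ∈ {P : F[X] | P.Monic ∧ Irreducible P ∧ P.natDegree ≤ N}, EF g P).coeff 0 = 1 := by
  refine finprod_mem_induction (fun p : ℤ[X] => p.coeff 0 = 1) (by simp) ?_ ?_
  · intro x y hx hy
    have hx' : x.coeff 0 = 1 := hx
    have hy' : y.coeff 0 = 1 := hy
    change (x * y).coeff 0 = 1
    rw [mul_coeff_zero, hx', hy', mul_one]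
  · intro P hP
    exact ef_coeff g (pos_deg hP.2.1)

/-- The multiplicity of a root from a factorisation. -/
theorem mult_of {K : Type} [Field K] {p Q : K[X]} {a c : K} {k : ℕ} (hc : c ≠ 0)
    (hQ : Q.eval a ≠ 0) (h : p = C c * (X - C a) ^ k * Q) : p.rootMultiplicity a = k := by
  have hX : (X - C a : K[X]) ≠ 0 := X_sub_C_ne_zero a
  have hQ0 : Q ≠ 0 := by
    rintro rfl
    simp at hQ
  have hC : (C c : K[X]) ≠ 0 := C_ne_zero.2 hc
  rw [h, rootMultiplicity_mul (mul_ne_zero (mul_ne_zero hC (pow_ne_zero _ hX)) hQ0),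
    rootMultiplicity_mul (mul_ne_zero hC (pow_ne_zero _ hX)), rootMultiplicity_C,
    rootMultiplicity_X_sub_C_pow, rootMultiplicity_eq_zero (by simpa [IsRoot] using hQ)]
  omega

/-- The factorisation at a root. -/
theorem fac {K : Type} [Field K] {p : K[X]} (hp : p ≠ 0) (a : K) :
    ∃ Q : K[X], p = (X - C a) ^ (p.rootMultiplicity a) * Q ∧ Q.eval a ≠ 0 := by
  obtain ⟨Q, hQ, hn⟩ := exists_eq_pow_rootMultiplicity_mul_and_not_dvd p hp a
  exact ⟨Q, hQ, fun h => hn (dvd_iff_isRoot.2 h)⟩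

/-- `1` is a simple root of `X ^ n - 1`. -/
theorem mult_one {K : Type} [Field K] [CharZero K] {n : ℕ} (hn : 0 < n) :
    (X ^ n - 1 : K[X]).rootMultiplicity 1 = 1 := by
  have hne : (X ^ n - 1 : K[X]) ≠ 0 := (X_pow_sub_C_ne_zero hn (1 : K)) |> fun h => by simpa using h
  have hs : (X ^ n - 1 : K[X]).Separable :=
    X_pow_sub_one_separable_iff.2 (by exact_mod_cast hn.ne')
  have h1 := rootMultiplicity_le_one_of_separable hs (1 : K)
  have h2 : 0 < (X ^ n - 1 : K[X]).rootMultiplicity 1 :=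
    (rootMultiplicity_pos hne).2 (by simp [IsRoot])
  omega

/-- The multiplicity of the root one does not change under reversal. -/
theorem mult_rev {K : Type} [Field K] {p : K[X]} (hp : p ≠ 0) :
    p.reverse.rootMultiplicity 1 = p.rootMultiplicity 1 := by
  obtain ⟨Q, hQ, hQ1⟩ := fac hp (1 : K)
  have hr1 : (1 : K[X]).reverse = 1 := by rw [← C_1, reverse_C]
  have hrX : (X : K[X]).reverse = 1 := by rw [← one_mul (X : K[X]), reverse_mul_X, hr1]
  have hX : (X - C (1 : K)).reverse = C (-1) * (X - C 1) := by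
    have h : (X - C (1 : K)) = X + C (-1) := by simp [sub_eq_add_neg]
    rw [h, reverse_add_C, hrX]
    simp
  have hpow : ∀ k : ℕ, ((X - C (1 : K)) ^ k).reverse = C ((-1) ^ k) * (X - C 1) ^ k := by
    intro k
    induction k with
    | zero => simp [hr1]
    | succ k ih =>
      rw [pow_succ (X - C (1 : K)), reverse_mul_of_domain, ih, hX, pow_succ (-1 : K), C_mul]
      ring
  have hrev : p.reverse = C ((-1) ^ (p.rootMultiplicity 1)) *
      (X - C 1) ^ (p.rootMultiplicity 1) * Q.reverse := by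
    conv_lhs => rw [hQ]
    rw [reverse_mul_of_domain, hpow]
  refine mult_of (pow_ne_zero _ (by simp)) ?_ hrev
  intro h0
  apply hQ1
  let _ : Invertible (1 : K) := invertibleOne
  have := eval₂_reverse_mul_pow (RingHom.id K) (1 : K) Q
  simp only [invOf_one, one_pow, mul_one, eval₂_id] at this
  rw [← this]
  exact h0

/-- The multiplicity after a change of scale. -/
theorem mult_scale {K : Type} [Field K] {p : K[X]} (hp : p ≠ 0) {c : K} (hc : c ≠ 0) :
    (p.comp (C c * X)).rootMultiplicity 1 = p.rootMultiplicity c := by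
  obtain ⟨Q, hQ, hQ1⟩ := fac hp c
  refine mult_of (c := c ^ (p.rootMultiplicity c)) (Q := Q.comp (C c * X)) (pow_ne_zero _ hc) ?_ ?_
  · rw [eval_comp]
    simpa using hQ1
  · conv_lhs => rw [hQ]
    rw [mul_comp, pow_comp, sub_comp, X_comp, C_comp]
    have : (C c * X - C c : K[X]) = C c * (X - C 1) := by
      rw [C_1]
      ring
    rw [this, mul_pow, C_pow]

end Pol

open Pol

/-- The constant coefficient of the `L`-polynomial. -/
theorem isL_coeff {F : Type} [Field F] [Finite F] {g : F[X] × F[X] × F[X]} {L : ℤ[X]}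
    (h : IsL g L) : L.coeff 0 = 1 := by
  have h0 := h 0
  have hd : (X : ℤ[X]) ∣ L * (∏ᶠ P ∈ {P : F[X] | P.Monic ∧ Irreducible P ∧ P.natDegree ≤ 0},
      EF g P) - 1 := by
    simpa using h0
  have h1 := X_dvd_iff.1 hd
  rw [coeff_sub, mul_coeff_zero, prod_coeff, mul_one, coeff_one_zero] at h1
  omega

/-- The `L`-polynomial is unique. -/
theorem isL_unique {F : Type} [Field F] [Finite F] {g : F[X] × F[X] × F[X]} {L L' : ℤ[X]}
    (h : IsL g L) (h' : IsL g L') : L = L' := by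
  have key : ∀ N : ℕ, (X : ℤ[X]) ^ (N + 1) ∣ L - L' := by
    intro N
    set Q : ℤ[X] := ∏ᶠ P ∈ {P : F[X] | P.Monic ∧ Irreducible P ∧ P.natDegree ≤ N}, EF g P with hQ
    have hc : Q.coeff 0 = 1 := prod_coeff g N
    have hd : (X : ℤ[X]) ∣ Q - 1 := by
      rw [X_dvd_iff, coeff_sub, hc, coeff_one_zero, sub_self]
    obtain ⟨R, hR⟩ := hd
    have hco : IsCoprime (X : ℤ[X]) Q := ⟨-R, 1, by linear_combination hR⟩
    have h2 : (X : ℤ[X]) ^ (N + 1) ∣ (L - L') * Q := by
      have := dvd_sub (h N) (h' N)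
      have e : L * Q - 1 - (L' * Q - 1) = (L - L') * Q := by ring
      rw [← e]
      exact this
    exact (hco.pow_left (m := N + 1)).dvd_of_dvd_mul_right h2
  by_contra hne
  have hne' : L - L' ≠ 0 := sub_ne_zero.2 hne
  have h1 := natDegree_le_of_dvd (key (L - L').natDegree) hne'
  rw [natDegree_X_pow] at h1
  omega

/-- The order of vanishing at one of the characteristic polynomial. -/
theorem pol_mult {F : Type} [Field F] (q : ℕ) (hq : q ≠ 0) (L : ℤ[X]) (hL : L.coeff 0 = 1)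
    (I : Finset F[X]) (hI : ∀ P ∈ I, 0 < P.natDegree) :
    ((X - 1) ^ 3 * (X ^ 3 - 1) * (∏ P ∈ I, (X ^ P.natDegree - 1) ^ 2 * (X ^ (2 * P.natDegree) - 1)) *
      ((L.map (Int.castRingHom ℚ_[2])).comp (C ((q : ℚ_[2])⁻¹) * X)).reverse :
        ℚ_[2][X]).rootMultiplicity 1 =
      4 + 3 * I.card + (L.map (Int.castRingHom ℚ)).rootMultiplicity ((q : ℚ)⁻¹) := by
  have hL0 : L ≠ 0 := by
    rintro rfl
    simp at hL
  have hinj : Function.Injective (Int.castRingHom ℚ_[2]) := Int.cast_injective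
  have hLp : L.map (Int.castRingHom ℚ_[2]) ≠ 0 := (Polynomial.map_ne_zero_iff hinj).2 hL0
  have hq2 : ((q : ℚ_[2])⁻¹) ≠ 0 := inv_ne_zero (by exact_mod_cast hq)
  have hne1 : ∀ n : ℕ, 0 < n → (X ^ n - 1 : ℚ_[2][X]) ≠ 0 := by
    intro n hn h0
    have := mult_one (K := ℚ_[2]) hn
    rw [h0] at this
    simp at this
  have hX1 : (X - 1 : ℚ_[2][X]) ≠ 0 := by
    have := hne1 1 one_pos
    rwa [pow_one] at this
  have hfac : ∀ P ∈ I, ((X ^ P.natDegree - 1) ^ 2 * (X ^ (2 * P.natDegree) - 1) : ℚ_[2][X]) ≠ 0 :=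
    fun P hP => mul_ne_zero (pow_ne_zero _ (hne1 _ (hI P hP)))
      (hne1 _ (Nat.mul_pos two_pos (hI P hP)))
  have hprod : ∀ J : Finset F[X], J ⊆ I →
      ((∏ P ∈ J, (X ^ P.natDegree - 1) ^ 2 * (X ^ (2 * P.natDegree) - 1) : ℚ_[2][X]) ≠ 0 ∧
      (∏ P ∈ J, (X ^ P.natDegree - 1) ^ 2 * (X ^ (2 * P.natDegree) - 1) :
        ℚ_[2][X]).rootMultiplicity 1 = 3 * J.card) := by
    classical
    intro J
    refine Finset.induction_on J ?_ ?_
    · intro _
      simp
    · intro P J hP ih hJ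
      obtain ⟨ih1, ih2⟩ := ih (fun x hx => hJ (Finset.mem_insert_of_mem hx))
      have hPI : P ∈ I := hJ (Finset.mem_insert_self _ _)
      rw [Finset.prod_insert hP, Finset.card_insert_of_notMem hP]
      have hne := mul_ne_zero (hfac P hPI) ih1
      refine ⟨hne, ?_⟩
      rw [rootMultiplicity_mul hne, ih2, rootMultiplicity_mul (hfac P hPI), sq,
        rootMultiplicity_mul (mul_ne_zero (hne1 _ (hI P hPI)) (hne1 _ (hI P hPI))),
        mult_one (hI P hPI), mult_one (Nat.mul_pos two_pos (hI P hPI))]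
      ring
  obtain ⟨hp1, hp2⟩ := hprod I (Finset.Subset.refl I)
  have hcomp : (L.map (Int.castRingHom ℚ_[2])).comp (C ((q : ℚ_[2])⁻¹) * X) ≠ 0 := by
    intro h0
    have hc0 : ((L.map (Int.castRingHom ℚ_[2])).comp (C ((q : ℚ_[2])⁻¹) * X)).eval 0 = 1 := by
      rw [eval_comp]
      simp [eval_mul, ← coeff_zero_eq_eval_zero, hL]
    rw [h0] at hc0
    simp at hc0
  have hrev : ((L.map (Int.castRingHom ℚ_[2])).comp (C ((q : ℚ_[2])⁻¹) * X)).reverse ≠ 0 := by
    rwa [Ne, reverse_eq_zero]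
  have hA : ((X - 1) ^ 3 * (X ^ 3 - 1) : ℚ_[2][X]) ≠ 0 :=
    mul_ne_zero (pow_ne_zero _ hX1) (hne1 3 (by norm_num))
  have hB := mul_ne_zero hA hp1
  have hC := mul_ne_zero hB hrev
  rw [rootMultiplicity_mul hC, rootMultiplicity_mul hB, rootMultiplicity_mul hA, hp2,
    mult_rev hcomp, mult_scale hLp hq2, mult_one (by norm_num : 0 < 3)]
  have h3 : ((X - 1 : ℚ_[2][X]) ^ 3).rootMultiplicity 1 = 3 := by
    have h := rootMultiplicity_X_sub_C_pow (1 : ℚ_[2]) 3
    rwa [C_1] at h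
  rw [h3]
  have hmap : (L.map (Int.castRingHom ℚ_[2])).rootMultiplicity ((q : ℚ_[2])⁻¹) =
      (L.map (Int.castRingHom ℚ)).rootMultiplicity ((q : ℚ)⁻¹) := by
    have h := eq_rootMultiplicity_map (p := L.map (Int.castRingHom ℚ))
      (f := algebraMap ℚ ℚ_[2]) (algebraMap ℚ ℚ_[2]).injective ((q : ℚ)⁻¹)
    rw [h, Polynomial.map_map]
    have e1 : (algebraMap ℚ ℚ_[2]).comp (Int.castRingHom ℚ) = Int.castRingHom ℚ_[2] :=
      RingHom.ext_int _ _
    have e2 : algebraMap ℚ ℚ_[2] ((q : ℚ)⁻¹) = (q : ℚ_[2])⁻¹ := by simp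
    rw [e1, e2]
  rw [hmap]

end Pool.RKO
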