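import Pool.Agent.H59.R1.Defs
import Pool.Agent.H75.PRL.MN2

/-!
# Rank one over `F(t)`, module MN1: the main theorem from the modules
-/

set_option autoImplicit false

namespace Pool.RKO

open Polynomial Matrix Pool.AVR Pool.AVS Pool.RZ Pool.PRL

open FIP in
open Classical in
/-- MN1 -/
theorem mn1 (hCX1 : CX1Stmt) (hLW1 : LW1Stmt) (hFN1 : FN1Stmt) (hSH1 : SH1Stmt)
    (hTW1 : TW1Stmt) (hNIR : NIRStmt) (hAVP : AVPStmt) (hRKP : RKPStmt)
    (hCNF : CNFStmt) (hDSC : DSCStmt) (hSHC : SHCStmt) : MN1Stmt := by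
  intro F _ _ h2 ε hε
  have hq1 : 1 < Nat.card F := Finite.one_lt_card
  have hq0 : (0 : ℝ) < Nat.card F := by exact_mod_cast (by omega : 0 < Nat.card F)
  have h2K : (2 : RatFunc F) ≠ 0 := by
    intro h
    apply h2
    have h3 : algebraMap F (RatFunc F) 2 = algebraMap F (RatFunc F) 0 := by
      rw [map_ofNat, map_zero]
      exact h
    exact (algebraMap F (RatFunc F)).injective h3
  have hdiscmap : ∀ f : F[X] × F[X] × F[X],
      disc (algebraMap F[X] (RatFunc F) f.1) (algebraMap F[X] (RatFunc F) f.2.1)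
        (algebraMap F[X] (RatFunc F) f.2.2) = algebraMap F[X] (RatFunc F)
          (disc f.1 f.2.1 f.2.2) := by
    intro f
    simp only [disc, map_add, map_sub, map_mul, map_pow, map_ofNat]
  have hsep : ∀ f : F[X] × F[X] × F[X], (cubK f).Separable ↔ disc f.1 f.2.1 f.2.2 ≠ 0 := by
    intro f
    rw [cubK, (hDSC (RatFunc F) h2K _ _ _).1, hdiscmap]
    exact (map_ne_zero_iff _ (RatFunc.algebraMap_injective F))
  have hIrrEll : ∀ n, Irr F n ⊆ Ell F n := fun n f hf => ⟨hf.1, (hsep f).1 hf.2.2⟩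
  have hε' : 0 < ε / 3 := by positivity
  refine ⟨?_, ?_⟩
  · intro k
    obtain ⟨E1, hE1⟩ := hNIR F k
    obtain ⟨E2, hE2⟩ := hNIR F 2
    obtain ⟨T1, h3, h4⟩ := hE1 (2 * (2 * (E1 + E2))) (by omega)
    obtain ⟨T2, h5, h6⟩ := hE2 (2 * (E1 + E2)) (by omega)
    exact ⟨2 * (E1 + E2), T1, T2, ⟨even_two_mul _, h4, h6, h5⟩, h3⟩
  obtain ⟨k0, hk0⟩ := hLW1 F h2 (ε / 3) hε'
  refine ⟨2 * k0 + 1, ?_⟩
  intro e T1 T2 ha ho hk
  obtain ⟨j, hj⟩ := id ho
  have hj2 : T1.card / 2 = j := by omega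
  have hdis := adm_dis ha
  have hev := adm_ev ha
  obtain ⟨N, hN⟩ := hk0 T1 T2 j hdis hev ha.2.2.2 hj (by omega)
  obtain ⟨⟨δ₁, hδ₁, N1, hN1⟩, _⟩ := hAVP F h2 (T1 ∪ T2) hev
  obtain ⟨c₀, hc₀, hCX⟩ := hCX1 F h2
  obtain ⟨N2, hN2⟩ := hCX (T1 ∪ T2) hev
  set δ : ℝ := c₀ * δ₁ with hδd
  have hδ : 0 < δ := by positivity
  set E : ℕ := e * (T1.card / 2 + 1) with hE
  refine ⟨δ / (Nat.card F : ℝ) ^ (12 * (E + 1)), by positivity, N + N1 + N2 + 1 + E + 1, ?_⟩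
  intro m hm
  obtain ⟨n, rfl⟩ : ∃ n, m = n + E + 1 := ⟨m - E - 1, by omega⟩
  have hn1 : 1 ≤ n := by omega
  obtain ⟨hfin, hbad⟩ := hN n (by omega)
  obtain ⟨_, hdens0⟩ := hN1 n (by omega)
  obtain ⟨_, hdens1⟩ := hN2 n (by omega)
  set Fm := FmT F n (insert X (T1 ∪ T2)) with hFm
  have hdens : δ * (Nat.card F : ℝ) ^ (12 * n + 3) ≤ Fm.ncard := by
    rw [hδd, mul_assoc]
    exact (mul_le_mul_of_nonneg_left hdens0 hc₀.le).trans hdens1
  have hFm0 : (0 : ℝ) < Fm.ncard := lt_of_lt_of_le (by positivity) hdens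
  have hne0 : ∀ A : Set (F[X] × F[X] × F[X]), (0 : ℝ) < A.ncard → A.Nonempty := by
    intro A hA
    rw [Set.nonempty_iff_ne_empty]
    intro h
    rw [h, Set.ncard_empty] at hA
    simp at hA
  have hEfin : (Ell F (n + E + 1)).Finite :=
    (hCNF F h2 (n + E + 1) (by omega)).1.subset fun f hf => hf.1
  have hEc : ((Ell F (n + E + 1)).ncard : ℝ) ≤ (Nat.card F : ℝ) ^ (12 * (n + E + 1) + 3) := by
    have h3 : (Ell F (n + E + 1)).ncard ≤ (Fam F (n + E + 1)).ncard :=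
      Set.ncard_le_ncard (fun f hf => hf.1) (hCNF F h2 (n + E + 1) (by omega)).1
    rw [(hCNF F h2 (n + E + 1) (by omega)).2.1] at h3
    exact_mod_cast h3
  obtain ⟨hXT, hMo, hFT, hT⟩ := hTW1 F h2 n (T1 ∪ T2) hev
  have hmn : n + E + 1 - E - 1 = n := by omega
  have hZ : ZR e T1 T2 (n + E + 1) = ZB T1 T2 Fm := by
    unfold ZR
    rw [← hE, hmn]
  have hpr0 : ∀ S ∈ Sl T1 T2, pr (insert X S) ≠ 0 := by
    intro S hS
    rw [(hT S (Sl_sub hS)).1]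
    exact mul_ne_zero X_ne_zero (hT S (Sl_sub hS)).2.1.ne_zero
  have hZs : {g | g ∈ ZR e T1 T2 (n + E + 1) ∧ g.1 = 0} = ZB T1 T2 {f | f ∈ Fm ∧ f.1 = 0} := by
    rw [hZ]
    ext g
    constructor
    · rintro ⟨⟨f, hf, S, hS, rfl⟩, h0⟩
      refine ⟨f, ⟨hf, ?_⟩, S, hS, rfl⟩
      have h4 := hpr0 S hS
      simpa [tw, h4] using h0
    · rintro ⟨f, ⟨hf, h0⟩, S, hS, rfl⟩
      refine ⟨⟨f, hf, S, hS, rfl⟩, ?_⟩
      simp [tw, h0]
  have hdens2 : ∀ (A : Set (F[X] × F[X] × F[X])) (x : ℝ), 0 < (Sl T1 T2).card →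
      x ≤ A.ncard → (ZB T1 T2 A).ncard = (Sl T1 T2).card * A.ncard →
      x ≤ (ZB T1 T2 A).ncard := by
    intro A x hS hx hc
    rw [hc]
    push_cast
    have h3 : (1 : ℝ) ≤ (Sl T1 T2).card := by exact_mod_cast hS
    have h4 : (0 : ℝ) ≤ A.ncard := by positivity
    nlinarith
  have h3ε : 3 * (ε / 3) = ε := mul_div_cancel₀ ε (by norm_num : (3 : ℝ) ≠ 0)
  obtain ⟨hsub, hZfin, hZc, hS0, hlaw⟩ := hFN1 F h2 (ε / 3) e n T1 T2 Fm hε' ha ho hn1
    (Set.Subset.refl _) hfin (hne0 _ hFm0) hbad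
  rw [← hE] at hsub
  rw [h3ε] at hlaw
  have hZsub : ZB T1 T2 Fm ⊆ Ell F (n + E + 1) := hsub.trans (hIrrEll _)
  refine ⟨?_, ?_, ?_⟩
  · have h7 := hdens2 Fm _ hS0 hdens hZc
    rw [hZ]
    refine ⟨hZsub, hEfin, ?_, ?_, hlaw⟩
    · have h3 : (ZB T1 T2 Fm).ncard ≤ (Ell F (n + E + 1)).ncard := Set.ncard_le_ncard hZsub hEfin
      have h4 : (0 : ℝ) < (ZB T1 T2 Fm).ncard := lt_of_lt_of_le (by positivity) h7
      have h5 : 0 < (ZB T1 T2 Fm).ncard := by exact_mod_cast h4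
      omega
    · calc δ / (Nat.card F : ℝ) ^ (12 * (E + 1)) * (Ell F (n + E + 1)).ncard
          ≤ δ / (Nat.card F : ℝ) ^ (12 * (E + 1)) * (Nat.card F : ℝ) ^ (12 * (n + E + 1) + 3) :=
            mul_le_mul_of_nonneg_left hEc (by positivity)
        _ = δ * (Nat.card F : ℝ) ^ (12 * n + 3) := by
            rw [show 12 * (n + E + 1) + 3 = 12 * n + 3 + 12 * (E + 1) by ring, pow_add]
            field_simp
        _ ≤ (ZB T1 T2 Fm).ncard := h7
  · intro g hg hR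
    rw [hZ] at hg
    exact (hRKP F h2 _ g (hsub hg)).2 (Or.inr hR.1)
  · intro h3
    obtain ⟨hs1, hs2⟩ := hSH1 F h2 h3 n (ε / 3) T1 T2 hev
    rw [← hFm] at hs1 hs2
    set As : Set (F[X] × F[X] × F[X]) := {f | f ∈ Fm ∧ f.1 = 0} with hAs
    have hqp : (0 : ℝ) < (Nat.card F : ℝ) ^ (2 * n + 1) := by positivity
    have hs1' : (Fm.ncard : ℝ) = (Nat.card F : ℝ) ^ (2 * n + 1) * As.ncard := by
      exact_mod_cast hs1
    have hs2' : ({f | f ∈ Fm ∧ ¬ Gd (ε / 3) T1 T2 f}.ncard : ℝ) =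
        (Nat.card F : ℝ) ^ (2 * n + 1) * {f | f ∈ As ∧ ¬ Gd (ε / 3) T1 T2 f}.ncard := by
      exact_mod_cast hs2
    have hAfin : As.Finite := hfin.subset fun f hf => hf.1
    have hbads : ({f | f ∈ As ∧ ¬ Gd (ε / 3) T1 T2 f}.ncard : ℝ) ≤ ε / 3 * As.ncard := by
      rw [hs1', hs2'] at hbad
      have : (Nat.card F : ℝ) ^ (2 * n + 1) *
          ({f | f ∈ As ∧ ¬ Gd (ε / 3) T1 T2 f}.ncard : ℝ) ≤
          (Nat.card F : ℝ) ^ (2 * n + 1) * (ε / 3 * As.ncard) := by linarith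
      exact le_of_mul_le_mul_left this hqp
    have hdensS : δ * (Nat.card F : ℝ) ^ (10 * n + 2) ≤ As.ncard := by
      rw [hs1', show 12 * n + 3 = (2 * n + 1) + (10 * n + 2) by ring, pow_add] at hdens
      have : (Nat.card F : ℝ) ^ (2 * n + 1) * (δ * (Nat.card F : ℝ) ^ (10 * n + 2)) ≤
          (Nat.card F : ℝ) ^ (2 * n + 1) * As.ncard := by linarith
      exact le_of_mul_le_mul_left this hqp
    have hAs0 : (0 : ℝ) < As.ncard := lt_of_lt_of_le (by positivity) hdensS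
    obtain ⟨hsub, hZfin, hZc, hS0, hlaw⟩ := hFN1 F h2 (ε / 3) e n T1 T2 As hε' ha ho hn1
      (fun f hf => hf.1) hAfin (hne0 _ hAs0) hbads
    rw [← hE] at hsub
    rw [h3ε] at hlaw
    have hZsub : ZB T1 T2 As ⊆ Sht F (n + E + 1) := by
      intro g hg
      refine ⟨hIrrEll _ (hsub hg), ?_⟩
      obtain ⟨f, hf, S, hS, rfl⟩ := hg
      simp [tw, hf.2]
    have h7 := hdens2 As _ hS0 hdensS hZc
    have hShF : (Sht F (n + E + 1)).Finite := hEfin.subset fun f hf => hf.1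
    have hShc : ((Sht F (n + E + 1)).ncard : ℝ) ≤ (Nat.card F : ℝ) ^ (10 * (n + E + 1) + 2) := by
      have h8 := SHA.cnt hSHC h2 h3 (n + E + 1) hEfin (fun _ => True)
        (fun _ _ _ _ _ _ => Iff.rfl)
      simp only [and_true, Set.ofPred_mem_eq] at h8
      have h9 : ((Ell F (n + E + 1)).ncard : ℝ) =
          (Nat.card F : ℝ) ^ (2 * (n + E + 1) + 1) * (Sht F (n + E + 1)).ncard := by
        exact_mod_cast h8
      rw [h9, show 12 * (n + E + 1) + 3 = (2 * (n + E + 1) + 1) + (10 * (n + E + 1) + 2) by ring,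
        pow_add (Nat.card F : ℝ) (2 * (n + E + 1) + 1) (10 * (n + E + 1) + 2)] at hEc
      exact le_of_mul_le_mul_left hEc (by positivity)
    rw [hZs]
    refine ⟨⟨hZsub, hShF, ?_, ?_, hlaw⟩, ?_⟩
    · have h3 : (ZB T1 T2 As).ncard ≤ (Sht F (n + E + 1)).ncard :=
        Set.ncard_le_ncard hZsub hShF
      have h4 : (0 : ℝ) < (ZB T1 T2 As).ncard := lt_of_lt_of_le (by positivity) h7
      have h5 : 0 < (ZB T1 T2 As).ncard := by exact_mod_cast h4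
      omega
    · have hq1' : (1 : ℝ) ≤ Nat.card F := by exact_mod_cast hq1.le
      have hpow : (Nat.card F : ℝ) ^ (10 * (E + 1)) ≤ (Nat.card F : ℝ) ^ (12 * (E + 1)) :=
        pow_le_pow_right₀ hq1' (by omega)
      calc δ / (Nat.card F : ℝ) ^ (12 * (E + 1)) * (Sht F (n + E + 1)).ncard
          ≤ δ / (Nat.card F : ℝ) ^ (12 * (E + 1)) * (Nat.card F : ℝ) ^ (10 * (n + E + 1) + 2) :=
            mul_le_mul_of_nonneg_left hShc (by positivity)
        _ ≤ δ / (Nat.card F : ℝ) ^ (10 * (E + 1)) * (Nat.card F : ℝ) ^ (10 * (n + E + 1) + 2) := by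
            refine mul_le_mul_of_nonneg_right ?_ (by positivity)
            exact div_le_div_of_nonneg_left hδ.le (by positivity) hpow
        _ = δ * (Nat.card F : ℝ) ^ (10 * n + 2) := by
            rw [show 10 * (n + E + 1) + 2 = 10 * n + 2 + 10 * (E + 1) by ring, pow_add]
            field_simp
        _ ≤ (ZB T1 T2 As).ncard := h7
    · intro g hg
      refine ⟨hZsub hg, ?_⟩
      obtain ⟨f, hf, S, hS, rfl⟩ := hg
      exact ((hT S (Sl_sub hS)).2.2 f hf.1).2.1 hf.2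

end Pool.RKO
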