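import Pool.Agent.H59.R1.Defs
import Pool.Agent.H75.PRL.SHA

/-!
# Rank one over `F(t)`, module SH1: short equations
-/

set_option autoImplicit false

namespace Pool.RKO

open Polynomial Matrix Pool.AVR Pool.AVS Pool.RZ Pool.PRL Pool.PRL.SHA

namespace SH1

open Classical in
theorem fmt_subs (hCBP : CBPStmt) {F : Type} [Field F] [Finite F] (h2 : (2 : F) ≠ 0)
    (h3 : (3 : F) ≠ 0) {n : ℕ} {T : Finset F[X]} (hT : MoT T) {f f' : F[X] × F[X] × F[X]}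
    {r : F[X]} (h : Subs 1 r f f') (hf' : f' ∈ Fam F n) (hf : f ∈ FmT F n T) :
    f' ∈ FmT F n T := by
  obtain ⟨⟨hfF, hsq, hdeg⟩, hT12, hNR⟩ := hf
  have hr := deg_r h3 h hfF hf'
  have hd := disc_subs h
  refine ⟨⟨hf', by rw [hd]; exact hsq, by rw [hd]; exact hdeg⟩, ?_, ?_⟩
  · intro P hP
    have h4 := ((hCBP F h2 P (hT P hP).1 (hT P hP).2).1 f).1 (hT12 P hP)
    rw [(hCBP F h2 P (hT P hP).1 (hT P hP).2).1 f']
    have h5 := t12r_subs (AdjoinRoot.mk P r) h4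
    obtain ⟨a1, a2, a3⟩ := h
    have e1 : AdjoinRoot.mk P f'.1 = AdjoinRoot.mk P f.1 - 3 * AdjoinRoot.mk P r := by
      rw [a1]
      simp only [map_sub, map_mul, map_pow, map_one, map_ofNat]
      ring
    have e2 : AdjoinRoot.mk P f'.2.1 = AdjoinRoot.mk P f.2.1 -
        2 * AdjoinRoot.mk P r * AdjoinRoot.mk P f.1 + 3 * AdjoinRoot.mk P r ^ 2 := by
      rw [a2]
      simp only [map_add, map_sub, map_mul, map_pow, map_one, map_ofNat]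
      ring
    have e3 : AdjoinRoot.mk P f'.2.2 = AdjoinRoot.mk P f.2.2 -
        AdjoinRoot.mk P r * AdjoinRoot.mk P f.2.1 +
        AdjoinRoot.mk P r ^ 2 * AdjoinRoot.mk P f.1 - AdjoinRoot.mk P r ^ 3 := by
      rw [a3]
      simp only [map_add, map_sub, map_mul, map_pow, map_one]
      ring
    rw [e1, e2, e3]
    exact h5
  · rw [top_subs h hfF hr]
    exact nr_subs _ hNR

open Classical in
theorem gd_subs (hSHI : SHIStmt) {F : Type} [Field F] {ε : ℝ} {T1 T2 : Finset F[X]}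
    {f f' : F[X] × F[X] × F[X]} {r : F[X]} (h : Subs 1 r f f') (hl : Gd ε T1 T2 f) :
    Gd ε T1 T2 f' := by
  have hn : ∀ S : Finset F[X], (Sel (tw (pr S) f')).ncard = (Sel (tw (pr S) f)).ncard :=
    fun S => ((hSHI F _ _ 1 _ one_ne_zero (subs_tw h (pr S))).1).symm
  refine ⟨lawF_subs hSHI h hl.1, fun S hS h1 => ?_⟩
  rw [hn] at h1 ⊢
  exact hl.2 S hS h1

end SH1

open Classical in
/-- SH1 -/
theorem sh1 (hCBP : CBPStmt) (hTWP : TWPStmt) (hSHI : SHIStmt) (hSHC : SHCStmt)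
    (hCNF : CNFStmt) : SH1Stmt := by
  intro F _ _ h2 h3 n ε T1 T2 hev
  have hMo : MoT (insert (X : F[X]) (T1 ∪ T2)) := by
    intro P hP
    rcases Finset.mem_insert.1 hP with rfl | hP
    · exact ⟨monic_X, irreducible_X⟩
    · exact ⟨(hev P hP).1, (hev P hP).2.1⟩
  have hfin : (Ell F n).Finite := by
    refine (hCNF F h2 (n + 1) (by omega)).1.subset fun f hf => ?_
    refine ⟨hf.1.1.trans ?_, hf.1.2.1.trans ?_, hf.1.2.2.trans ?_⟩ <;> omega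
  have hsub : ∀ f ∈ FmT F n (insert X (T1 ∪ T2)), f ∈ FmT F n (T1 ∪ T2) := fun f hf =>
    ⟨hf.1, fun P hP => hf.2.1 P (Finset.mem_insert_of_mem hP), hf.2.2⟩
  have hE : ∀ f ∈ FmT F n (insert X (T1 ∪ T2)), f ∈ Ell F n := fun f hf =>
    ⟨((hTWP F h2 n _ hev).2 f (hsub f hf)).1, ((hTWP F h2 n _ hev).2 f (hsub f hf)).2.2.2.2.1⟩
  have hF : ∀ (f f' : F[X] × F[X] × F[X]) (r : F[X]), Subs 1 r f f' → f ∈ Ell F n →
      f' ∈ Ell F n → (f ∈ FmT F n (insert X (T1 ∪ T2)) ↔ f' ∈ FmT F n (insert X (T1 ∪ T2))) :=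
    fun f f' r hr hf hf' => ⟨SH1.fmt_subs hCBP h2 h3 hMo hr hf'.1,
      SH1.fmt_subs hCBP h2 h3 hMo (subs_symm hr) hf.1⟩
  constructor
  · have h4 := cnt hSHC h2 h3 n hfin (fun f => f ∈ FmT F n (insert X (T1 ∪ T2))) hF
    have e1 : {f | f ∈ Ell F n ∧ f ∈ FmT F n (insert X (T1 ∪ T2))} =
        FmT F n (insert X (T1 ∪ T2)) := by
      ext f
      exact ⟨fun h => h.2, fun h => ⟨hE f h, h⟩⟩
    have e2 : {f | f ∈ Sht F n ∧ f ∈ FmT F n (insert X (T1 ∪ T2))} =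
        {f | f ∈ FmT F n (insert X (T1 ∪ T2)) ∧ f.1 = 0} := by
      ext f
      exact ⟨fun h => ⟨h.2, h.1.2⟩, fun h => ⟨⟨hE f h.1, h.2⟩, h.1⟩⟩
    rw [e1, e2] at h4
    exact h4
  · have h4 := cnt hSHC h2 h3 n hfin
      (fun f => f ∈ FmT F n (insert X (T1 ∪ T2)) ∧ ¬ Gd ε T1 T2 f)
      (fun f f' r hr hf hf' => and_congr (hF f f' r hr hf hf') (not_congr
        ⟨SH1.gd_subs hSHI hr, SH1.gd_subs hSHI (subs_symm hr)⟩))
    have e1 : {f | f ∈ Ell F n ∧ f ∈ FmT F n (insert X (T1 ∪ T2)) ∧ ¬ Gd ε T1 T2 f} =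
        {f | f ∈ FmT F n (insert X (T1 ∪ T2)) ∧ ¬ Gd ε T1 T2 f} := by
      ext f
      exact ⟨fun h => h.2, fun h => ⟨hE f h.1, h⟩⟩
    have e2 : {f | f ∈ Sht F n ∧ f ∈ FmT F n (insert X (T1 ∪ T2)) ∧ ¬ Gd ε T1 T2 f} =
        {f | (f ∈ FmT F n (insert X (T1 ∪ T2)) ∧ f.1 = 0) ∧ ¬ Gd ε T1 T2 f} := by
      ext f
      exact ⟨fun h => ⟨⟨h.2.1, h.1.2⟩, h.2.2⟩, fun h => ⟨⟨hE f h.1.1, h.1.2⟩, h.1.1, h.2⟩⟩
    rw [e1, e2] at h4
    exact h4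

end Pool.RKO
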