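import Pool.Agent.H15.AVR.STAB
import Pool.Agent.H2.AVR.AAV
import Pool.Agent.H2.AVR.BIR
import Pool.Agent.H2.AVR.NRM
import Pool.Agent.H2.AVR.RNK
import Pool.Agent.H25.AVR.DSC
import Pool.Agent.H25.AVR.NUM
import Pool.Agent.H29.AVR.LDC
import Pool.Agent.H29.AVR.LDN
import Pool.Agent.H33.AVR.CHP
import Pool.Agent.H33.AVR.DE5
import Pool.Agent.H33.AVR.INJ
import Pool.Agent.H33.AVR.RED
import Pool.Agent.H33.AVR.TA5
import Pool.Agent.H4.AVR.DEN
import Pool.Agent.H4.AVR.ICB
import Pool.Agent.H45.AVR.CHB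
import Pool.Agent.H45.AVR.SYB
import Pool.Agent.H46.AVR.BAS
import Pool.Agent.H46.AVR.HOM
import Pool.Agent.H49.AVR.GRP
import Pool.Agent.H57.AVR.LDB
import Pool.Agent.H57.AVR.MWL
import Pool.Agent.H57.AVR.SCL
import Pool.Agent.H58.AVR.KEY
import Pool.Agent.H59.AVR.DNI
import Pool.Agent.H62.AVR.ISO
import Pool.Agent.H62.AVR.PLL
import Pool.Agent.H64.AVR.PRG
import Pool.Agent.H64.AVR.ST1
import Pool.Agent.H64.AVR.TOP
import Pool.Agent.H65.AVR.LAT
import Pool.Agent.H65.AVR.LDT
import Pool.Agent.H65.AVR.STE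
import Pool.Agent.H74.AVR.EQF
import Pool.Agent.H74.AVR.LDA
import Pool.Agent.H75.AVR.LN2
import Pool.Agent.H75.AVR.SFI
import Pool.Agent.H82.AVR.LDP
import Pool.Agent.H83.AVR.EQB
import Pool.Agent.H85.AVR.KER
import Pool.Agent.H86.AVR.DEL
import Pool.Agent.H86.AVR.TAI
import Pool.Agent.H87.AVR.ZET
import Pool.Agent.H95.AVR.ACT
import Pool.Agent.H95.AVR.CNF
import Pool.Agent.H96.AVR.ST2
import Pool.Agent.H99.AVR.CNB
import Pool.Agent.H99.AVR.FIN
import Pool.Agent.H1.AVS.CHH
import Pool.Agent.H1.AVS.TRC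
import Pool.Agent.H5.AVS.GLB
import Pool.Agent.H15.AVS.SHC
import Pool.Agent.H16.AVS.CLE
import Pool.Agent.H20.AVS.SHP
import Pool.Agent.H29.AVS.INH
import Pool.Agent.H31.AVS.EQP
import Pool.Agent.H33.AVS.NGH
import Pool.Agent.H35.AVS.NR2
import Pool.Agent.H57.AVS.CPH
import Pool.Agent.H65.AVS.SYH
import Pool.Agent.H69.AVS.POL
import Pool.Agent.H77.AVS.BIN
import Pool.Agent.H80.AVS.GLU
import Pool.Agent.H87.AVS.CHI
import Pool.Agent.H4.RZ.PA
import Pool.Agent.H4.RZ.PB
import Pool.Agent.H4.RZ.RC3
import Pool.Agent.H4.RZ.RC4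
import Pool.Agent.H19.RZ.DQ
import Pool.Agent.H19.RZ.KD
import Pool.Agent.H20.RZ.PL
import Pool.Agent.H20.RZ.PT
import Pool.Agent.H20.RZ.PU
import Pool.Agent.H20.RZ.TY
import Pool.Agent.H26.RZ.AV
import Pool.Agent.H35.RZ.RC2
import Pool.Agent.H51.RZ.FB1
import Pool.Agent.H51.RZ.FB2
import Pool.Agent.H52.RZ.INF
import Pool.Agent.H54.RZ.NUN
import Pool.Agent.H54.RZ.RC1
import Pool.Agent.H77.RZ.PN
import Pool.Agent.H59.RZ.DN
import Pool.Agent.H59.RZ.NU
import Pool.Agent.H77.RZ.CB
import Pool.Agent.H77.RZ.FI2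
import Pool.Agent.H77.RZ.Final
import Pool.Agent.H77.RZ.LM
import Pool.Agent.H77.RZ.RCP
import Pool.Agent.H77.RZ.TWF
import Pool.Agent.H77.RZ.UPM
import Pool.Agent.H77.RZ.USE
import Pool.Agent.H87.RZ.PR2
import Pool.Agent.H88.RZ.CN
import Pool.Agent.H88.RZ.KY
import Pool.Agent.H96.RZ.QF
import Pool.Agent.H96.RZ.SQ
import Pool.Agent.H11.AVS.SOL
import Pool.Agent.H16.AVS.EMB
import Pool.Agent.H16.AVS.SEH
import Pool.Agent.H17.AVS.LAC
import Pool.Agent.H33.AVS.TRS
import Pool.Agent.H40.AVS.HSM
import Pool.Agent.H43.AVS.CPI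
import Pool.Agent.H5.AVS.RIP
import Pool.Agent.H53.AVS.CPP
import Pool.Agent.H57.AVS.PTB
import Pool.Agent.H83.AVS.LDE
import Pool.Agent.H83.AVS.NFO
import Pool.Agent.H87.AVS.BSH
import Pool.Agent.H98.AVS.RII
import Pool.Agent.H12.AVS.CONE
import Pool.Agent.H12.AVS.ISV
import Pool.Agent.H33.AVS.EXH
import Pool.Agent.H55.AVS.MAS
import Pool.Agent.H23.AVS.TRN
import Pool.Agent.H70.AVS.LTO
import Pool.Agent.H7.AVS.DBL
import Pool.Agent.H85.AVS.APX
import Pool.Agent.H65.AVS.DS1
import Pool.Agent.H65.AVS.DS2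
import Pool.Agent.H15.AVS.LVF
import Pool.Agent.H69.AVS.TRA
import Pool.Agent.H12.AVS.LLG
import Pool.Agent.H68.AVS.LCL
import Pool.Agent.H37.AVS.EBU
import Pool.Agent.H64.AVS.UNI
import Pool.Agent.H61.AVS.SLP
import Pool.Agent.H36.AVS.DIX
import Pool.Agent.H1.AVS.DEQ
import Pool.Agent.H1.AVS.SHI
import Pool.Agent.H1.PRL.PLP
import Pool.Agent.H15.PRL.LT1
import Pool.Agent.H15.PRL.LU2
import Pool.Agent.H20.PRL.CBP
import Pool.Agent.H20.PRL.LCC
import Pool.Agent.H22.PRL.GDF
import Pool.Agent.H25.PRL.CGB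
import Pool.Agent.H25.PRL.IDN
import Pool.Agent.H32.PRL.FLP
import Pool.Agent.H32.PRL.LSM
import Pool.Agent.H32.PRL.MLG
import Pool.Agent.H32.PRL.SLC
import Pool.Agent.H33.PRL.EXI
import Pool.Agent.H33.PRL.TYM
import Pool.Agent.H34.PRL.OAL
import Pool.Agent.H34.PRL.QRC
import Pool.Agent.H4.PRL.CLA
import Pool.Agent.H4.PRL.LMI
import Pool.Agent.H40.PRL.DNP
import Pool.Agent.H40.PRL.LU1
import Pool.Agent.H40.PRL.TWP
import Pool.Agent.H40.PRL.TYQ
import Pool.Agent.H44.PRL.LHS
import Pool.Agent.H44.PRL.TCT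
import Pool.Agent.H52.PRL.LI1
import Pool.Agent.H52.PRL.RKP
import Pool.Agent.H52.PRL.SMP
import Pool.Agent.H54.PRL.LT2
import Pool.Agent.H55.PRL.KYP
import Pool.Agent.H55.PRL.TYP
import Pool.Agent.H58.PRL.LBB
import Pool.Agent.H6.PRL.CYM
import Pool.Agent.H6.PRL.SCD
import Pool.Agent.H60.PRL.FB3
import Pool.Agent.H64.PRL.HPF
import Pool.Agent.H64.PRL.NIR
import Pool.Agent.H64.PRL.SEL
import Pool.Agent.H66.PRL.AVP
import Pool.Agent.H66.PRL.PRP
import Pool.Agent.H67.PRL.QRR
import Pool.Agent.H75.PRL.FIQ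
import Pool.Agent.H75.PRL.HRS
import Pool.Agent.H75.PRL.QFP
import Pool.Agent.H75.PRL.SHA
import Pool.Agent.H77.PRL.BLC
import Pool.Agent.H77.PRL.LAW
import Pool.Agent.H77.PRL.SLZ
import Pool.Agent.H77.PRL.SQR
import Pool.Agent.H81.PRL.LHI
import Pool.Agent.H81.PRL.SPU
import Pool.Agent.H83.PRL.NUP
import Pool.Agent.H87.PRL.CYC
import Pool.Agent.H87.PRL.DIA
import Pool.Agent.H97.PRL.CNP
import Pool.Agent.H97.PRL.FB4
import Pool.Agent.H97.PRL.LHL
import Pool.Agent.H75.PRL.MN2
import Pool.Agent.H59.R1.DN1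
import Pool.Agent.H59.R1.FN1
import Pool.Agent.H59.R1.LT3
import Pool.Agent.H59.R1.LW1
import Pool.Agent.H59.R1.ML1
import Pool.Agent.H59.R1.QR1
import Pool.Agent.H59.R1.SE1
import Pool.Agent.H59.R1.SWA
import Pool.Agent.H59.R1.SWB
import Pool.Agent.H59.R1.TW1
import Pool.Agent.H59.R1.UB1
import Pool.Agent.H84.R1.CX1
import Pool.Agent.H41.R1.LI3
import Pool.Agent.H41.R1.SQI
import Pool.Agent.H85.R1.MN1
import Pool.Agent.H85.R1.SH1
import Pool.Agent.H74.HYP.UNR

/-!
# Rank one: all modules together
-/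

set_option autoImplicit false

namespace Pool.RKO

open Pool.AVR Pool.AVS Pool.RZ Pool.PRL Pool.Agent.H70.AVS Pool.Agent.H16.AVS Pool.Agent.H33.PRL
  Pool.Agent.H81.PRL Pool.Agent.H64.PRL

/-- The main theorem for every finite field of odd order. -/
theorem mainR1 (F : Type) [Field F] [Finite F] (h2 : (2 : F) ≠ 0) : MainR1 F := by
  have hKER : KERStmt := by apply KER_thm <;> assumption
  have hHOM : HOMStmt := by apply hom_thm <;> assumption
  have hINJ : INJStmt := by apply inj_thm <;> assumption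
  have hISO : ISOStmt := by apply iso_thm <;> assumption
  have hCHP : CHPStmt := by apply chp_thm <;> assumption
  have hSYB : SYBStmt := by apply syb_thm <;> assumption
  have hCHB : CHBStmt := by apply chb_thm <;> assumption
  have hBAS : BASStmt := by apply bas_thm <;> assumption
  have hSTAB : STABStmt := by apply STAB_thm <;> assumption
  have hLAT : LATStmt := by apply lat_thm <;> assumption
  have hSCL : SCLStmt := by apply scl_thm <;> assumption
  have hDEN : DENStmt := by apply den_thm <;> assumption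
  have hDNI : DNIStmt := by apply dni_thm <;> assumption
  have hBIR : BIRStmt := by apply bir_thm <;> assumption
  have hNRM : NRMStmt := by apply nrm_thm <;> assumption
  have hKEY : KEYStmt := by apply key_thm <;> assumption
  have hGRP : GRPStmt := by apply grp_thm <;> assumption
  have hACT : ACTStmt := by apply act_thm <;> assumption
  have hCNB : CNBStmt := by apply cnb_thm <;> assumption
  have hCNF : CNFStmt := by apply cnf_thm <;> assumption
  have hFIN : FINStmt := by apply fin_thm <;> assumption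
  have hSTE : STEStmt := by apply ste_thm <;> assumption
  have hDSC : DSCStmt := by apply DSC_thm <;> assumption
  have hICB : ICBStmt := by apply icb_thm <;> assumption
  have hLDP : LDPStmt := by apply ldp_thm <;> assumption
  have hEQB : EQBStmt := by apply eqb_thm <;> assumption
  have hRED : REDStmt := by apply red_thm <;> assumption
  have hRNK : RNKStmt := by apply rnk_thm <;> assumption
  have hAAV : AAVStmt := by apply aav_thm <;> assumption
  have hPLL : PLLStmt := by apply pll_thm <;> assumption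
  have hMWL : MWLStmt := by apply mwl_thm <;> assumption
  have hST1 : ST1Stmt := by apply st1_thm <;> assumption
  have hST2 : ST2Stmt := by apply ST2.st2_thm <;> assumption
  have hLDA : LDAStmt := by apply lda_thm <;> assumption
  have hLDB : LDBStmt := by apply ldb_thm <;> assumption
  have hLDC : LDCStmt := by apply H29.ldc_thm <;> assumption
  have hLDN : LDNStmt := by apply H29.ldn_thm <;> assumption
  have hLDT : LDTStmt := by apply ldt_thm <;> assumption
  have hLN2 : LN2Stmt := by apply ln2_thm <;> assumption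
  have hTOP : TOPStmt := by apply top_thm <;> assumption
  have hNUM : NUMStmt := by apply NUM_thm <;> assumption
  have hEQF : EQFStmt := by apply eqf_thm <;> assumption
  have hTAI : TAIStmt := by apply tai_thm <;> assumption
  have hDEL : DELStmt := by apply del_thm <;> assumption
  have hTA5 : TA5Stmt := by apply ta5_thm <;> assumption
  have hDE5 : DE5Stmt := by apply de5_thm <;> assumption
  have hPRG : PRGStmt := by apply prg_thm <;> assumption
  have hZET : ZETStmt := by apply zet_thm <;> assumption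
  have hSFI : SFIStmt := by apply sfi_thm <;> assumption
  -- the modules of AVS
  have hNGH : NGHStmt := ngh_thm
  have hCHI : CHIStmt := chi_thm
  have hTRC : TRCStmt := trc_thm hNGH
  have hINH : INHStmt := inh_thm
  have hPOL : POLStmt := pol_thm
  have hSYH : SYHStmt := syh_thm
  have hCHH : CHHStmt := chh_thm
  have hGLU : GLUStmt := glu_thm
  have hNR2 : NR2Stmt := nr2_thm
  have hGLB : GLBStmt := glb_thm hGLU hNR2 hBIR hPOL
  have hCLE : CLEStmt := Pool.Agent.H16.AVS.cle_thm
  have hCPH : CPHStmt := cph_thm hCHI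
  have hEQP : EQPStmt := eqp_thm
  have hBIN : BINStmt := bin_thm
  have hSHP : SHPStmt := SHP_thm
  have hSHC : SHCStmt := shc_thm
  -- the modules of RZ
  have hLM : LMStmt := lm_thm
  have hNUN : NUNStmt := nun_thm hNGH
  have hUPM : UPMStmt := upm_thm
  have hUSE : USEStmt := use_thm hLM hNUN
  have hTRE : TREStmt := tre_thm hLM hNUN hUPM
  have hINF : INFStmt := inf_thm hNGH
  have hBSH : BSHStmt := by apply bsh_thm <;> assumption
  have hEXH : EXHStmt := by apply exh_thm <;> assumption
  have hPTB : PTBStmt := by apply ptb_thm <;> assumption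
  have hSOL : SOLStmt := by apply sol_thm <;> assumption
  have hISV : ISVStmt := by apply isv_thm <;> assumption
  have hDIX : DIXStmt := by apply dix_thm <;> assumption
  have hSLP : SLPStmt := by apply SLP_thm <;> assumption
  have hDEQ : DEQStmt := by apply deq_thm <;> assumption
  have hCON : CONStmt := by apply con_thm <;> assumption
  have hDBL : DBLStmt := by apply dbl_thm <;> assumption
  have hTRN : TRNStmt := by apply trn_thm <;> assumption
  have hNFO : NFOStmt := by apply nfo_thm <;> assumption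
  have hLTO : LTOStmt := by apply Pool.Agent.H70.AVS.lto_thm <;> assumption
  have hDS1 : DS1Stmt := by apply ds1_thm <;> assumption
  have hDS2 : DS2Stmt := by apply ds2_thm <;> assumption
  have hUNI : UNIStmt := by apply uni_thm <;> assumption
  have hHSM : HSMStmt := by apply hsm_thm <;> assumption
  have hEBU : EBUStmt := by apply ebu_thm <;> assumption
  have hLCL : LCLStmt := by apply lcl_thm <;> assumption
  have hTRS : TRSStmt := by apply trs_thm <;> assumption
  have hCPP : CPPStmt := by apply cpp_thm <;> assumption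
  have hCPI : CPIStmt := by apply cpi_thm <;> assumption
  have hRIP : RIPStmt := by apply rip_thm <;> assumption
  have hRII : RIIStmt := by apply rii_thm <;> assumption
  have hAPX : APXStmt := by apply apx_thm <;> assumption
  have hTRA : TRAStmt := by apply tra_thm <;> assumption
  have hLLG : LLGStmt := by apply llg_thm <;> assumption
  have hLAC : LACStmt := by apply lac_thm <;> assumption
  have hSEH : SEHStmt := by apply Pool.Agent.H16.AVS.seh_thm <;> assumption
  have hEMB : EMBStmt := by apply Pool.Agent.H16.AVS.emb_thm <;> assumption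
  have hSHI : SHIStmt := by apply shi_thm <;> assumption
  have hMAS : MASStmt := by apply mas_thm <;> assumption
  have hLDE : LDEStmt := by apply lde_thm <;> assumption
  have hQF : QFStmt := qf_thm
  have hSQ : SQStmt := sq_thm hQF
  have hFB1 : FB1Stmt := fb1_thm
  have hFB2 : FB2Stmt := fb2_thm
  -- the modules of PRL
  have hIDN : Pool.PRL.IDNStmt := by apply idn <;> assumption
  have hFLP : Pool.PRL.FLPStmt := by apply flp <;> assumption
  have hPAR : Pool.PRL.PARStmt := by apply par <;> assumption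
  have hSLC : Pool.PRL.SLCStmt := by apply slc <;> assumption
  have hSLZ : Pool.PRL.SLZStmt := by apply slz <;> assumption
  have hBLC : Pool.PRL.BLCStmt := by apply blc <;> assumption
  have hSPU : Pool.PRL.SPUStmt := by apply spu <;> assumption
  have hTYM : Pool.PRL.TYMStmt := by apply tym <;> assumption
  have hCLA : Pool.PRL.CLAStmt := by apply cla <;> assumption
  have hTYP : Pool.PRL.TYPStmt := by apply typ <;> assumption
  have hLMI : Pool.PRL.LMIStmt := by apply lmi <;> assumption
  have hQFP : Pool.PRL.QFPStmt := by apply qfp <;> assumption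
  have hPLP : Pool.PRL.PLPStmt := by apply plp <;> assumption
  have hLBB : Pool.PRL.LBBStmt := by apply lbb_thm <;> assumption
  have hLCC : Pool.PRL.LCCStmt := by apply lcc_thm <;> assumption
  have hEIL : Pool.PRL.EILStmt := by apply eil <;> assumption
  have hOAL : Pool.PRL.OALStmt := by apply oal <;> assumption
  have hEXI : Pool.PRL.EXIStmt := by apply exi <;> assumption
  have hTYQ : Pool.PRL.TYQStmt := by apply tyq_thm <;> assumption
  have hCGB : Pool.PRL.CGBStmt := by apply cgb <;> assumption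
  have hDIA : Pool.PRL.DIAStmt := by apply dia_thm <;> assumption
  have hQRC : Pool.PRL.QRCStmt := by apply qrc <;> assumption
  have hHPF : Pool.PRL.HPFStmt := by apply hpf <;> assumption
  have hLHL : Pool.PRL.LHLStmt := by apply lhl <;> assumption
  have hLHS : Pool.PRL.LHSStmt := by apply lhs_thm <;> assumption
  have hLHI : Pool.PRL.LHIStmt := by apply lhi <;> assumption
  have hHRS : Pool.PRL.HRSStmt := by apply hrs <;> assumption
  have hSCD : Pool.PRL.SCDStmt := by apply scd_thm <;> assumption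
  have hCYM : Pool.PRL.CYMStmt := by apply cym <;> assumption
  have hCYC : Pool.PRL.CYCStmt := by apply cyc_thm <;> assumption
  have hLU1 : Pool.PRL.LU1Stmt := by apply lu1_thm <;> assumption
  have hSMP : Pool.PRL.SMPStmt := by apply smp <;> assumption
  have hLSM : Pool.PRL.LSMStmt := by apply lsm <;> assumption
  have hLSU : Pool.PRL.LSUStmt := by apply lsu <;> assumption
  have hLU2 : Pool.PRL.LU2Stmt := by apply lu2 <;> assumption
  have hSQR : Pool.PRL.SQRStmt := by apply sqr <;> assumption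
  have hSQL : Pool.PRL.SQLStmt := by apply sql <;> assumption
  have hLT1 : Pool.PRL.LT1Stmt := by apply lt1 <;> assumption
  have hLT2 : Pool.PRL.LT2Stmt := by apply lt2_thm <;> assumption
  have hLI1 : Pool.PRL.LI1Stmt := by apply li1 <;> assumption
  have hSEL : Pool.PRL.SELStmt := by apply sel <;> assumption
  have hTWP : Pool.PRL.TWPStmt := by apply twp_thm <;> assumption
  have hKYP : Pool.PRL.KYPStmt := by apply kyp <;> assumption
  have hCNP : Pool.PRL.CNPStmt := by apply cnp <;> assumption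
  have hTCT : Pool.PRL.TCTStmt := by apply tct_thm <;> assumption
  have hFB3 : Pool.PRL.FB3Stmt := by apply fb3 <;> assumption
  have hCBP : Pool.PRL.CBPStmt := by apply cbp_thm <;> assumption
  have hFB4 : Pool.PRL.FB4Stmt := by apply fb4 <;> assumption
  have hNUP : Pool.PRL.NUPStmt := by apply nup_thm <;> assumption
  have hDNP : Pool.PRL.DNPStmt := by apply dnp_thm <;> assumption
  have hPRP : Pool.PRL.PRPStmt := by apply prp_thm <;> assumption
  have hAVP : Pool.PRL.AVPStmt := by apply avp_thm <;> assumption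
  have hQRR : Pool.PRL.QRRStmt := by apply qrr <;> assumption
  have hMLG : Pool.PRL.MLGStmt := by apply mlg <;> assumption
  have hGDF : Pool.PRL.GDFStmt := by apply gdf <;> assumption
  have hLAW : Pool.PRL.LAWStmt := by apply law <;> assumption
  have hNIR : Pool.PRL.NIRStmt := by apply nir_thm <;> assumption
  have hRKP : Pool.PRL.RKPStmt := by apply rkp <;> assumption
  have hFIQ : Pool.PRL.FIQStmt := by apply fiq <;> assumption
  have hSHA : Pool.PRL.SHAStmt := by apply sha <;> assumption
  -- the modules of R1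
  have hPR2 : PR2Stmt := Pool.RZ.pr2_thm hPRG
  have rTW1 : TW1Stmt := tw1 hTWP
  have rDN1 : DN1Stmt := dn1 hEQF hTAI hTA5 hTOP hCBP
  have rUB1 : UB1Stmt := ub1 hEQF hCBP
  have rCX1 : CX1Stmt := cx1 rDN1 rUB1 hPR2
  have rSQI : SQIStmt := sqi Pool.HYP.unr
  have rLI3 : LI3Stmt := li3 rSQI hTRS hSCD
  have rLT3 : LT3Stmt := by apply lt3_thm <;> assumption
  have rQR1 : QR1Stmt := by apply qr1 <;> assumption
  have rSE1 : SE1Stmt := by apply se1 <;> assumption
  have rML1 : ML1Stmt := by apply ml1 <;> assumption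
  have rSWA : SWAStmt := by apply swa <;> assumption
  have rSWB : SWBStmt := by apply swb <;> assumption
  have rLW1 : LW1Stmt := by apply lw1 <;> assumption
  have rSH1 : SH1Stmt := by apply sh1 <;> assumption
  have rFN1 : FN1Stmt := by apply fn1 <;> assumption
  exact mn1 rCX1 rLW1 rFN1 rSH1 rTW1 hNIR hAVP hRKP hCNF hDSC hSHC F h2

end Pool.RKO
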